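import Pool.Agent.X296.Count.Main

/-!
# The generalized Tate conjecture over a fixed finite field in large dimension

Over every fixed finite field with `q = p ^ a` elements, the number of isogeny classes of absolutely
simple ordinary abelian varieties `A` of dimension `g` such that the generalized Tate conjecture
holds for all varieties `A ^ n × B`, `B` supersingular, in all degrees and for all coniveaux, is at
least `q ^ (g ^ 2 / 4 - C g log g)` for all large `g`.
-/

namespace Pool.Agent.Results.MP_8abef2_ag.FixedFieldAllPowers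

open Polynomial Pool.Agent.W518.TC Pool.Agent.X296.Count

theorem result (p : ℕ) [Fact p.Prime] (a : ℕ) (ha : 1 ≤ a) :
    ∃ (C : ℝ) (g0 : ℕ), ∀ g ≥ g0, ∃ S : Finset ℤ[X],
      (∀ P ∈ S, IsFrobPoly p a P ∧ P.natDegree = 2 * g ∧ Irreducible P ∧
        ¬ (p : ℤ) ∣ P.coeff g ∧
        (∀ n : ℕ, 0 < n → ∀ z w : ℂ, (P.map (Int.castRingHom ℂ)).IsRoot z →
          (P.map (Int.castRingHom ℂ)).IsRoot w → z ^ n = w ^ n → z = w) ∧
        GTCGenerated p a P) ∧
      ((p : ℝ) ^ a) ^ ((g : ℝ) ^ 2 / 4 - C * (g * Real.log g)) ≤ S.card := by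
  obtain ⟨C, g0, H⟩ := X296.Count.main p a ha
  refine ⟨C, g0, fun g hg => ?_⟩
  obtain ⟨S, hS, hc⟩ := H g hg
  exact ⟨S, fun P hP => ⟨(hS P hP).frob, (hS P hP).deg, (hS P hP).irr, (hS P hP).ord,
    (hS P hP).abs, (hS P hP).gtc⟩, hc⟩

end Pool.Agent.Results.MP_8abef2_ag.FixedFieldAllPowers
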