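import Mathlib
import Pool.Agent.TH115.GD.Defs
import Pool.Agent.X243.CD.FullHold
import Pool.Agent.X243.CD.RkTwoBase

/-!
# Galois-fixed classes, points and the Tate-Shafarevich group over all extensions, for 100% of the
# polynomial pullbacks of all elliptic surfaces with full level two and complete descent

Let `R` be an integrally closed domain which is finitely generated as a ring and not a field, with
`2 ≠ 0` in `R`, and `k` its field of fractions (for example the ring of integers of a number field
`k`). Let `S` be a finite nonempty subset of `k` and `n ≥ 5` odd. For a polynomial `g` over `k` in the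
variable `t` and an elliptic curve

`E₀ : y² = x (x - a) (x - b)`

over `k(s)` let `X` be the elliptic surface with the generic fibre

`E : y² = x (x - a(g(t))) (x - b(g(t)))`,

the pullback of `E₀` by `s = g(t)`. (Its geometric genus grows with `n`.)

The curves `E₀` are those with the following properties (`Base`, `Complete`): `a` and `b` are coprime
polynomials, all roots of `a b (a - b)` are in `k`; the maximum of the degrees of `a` and `b` is odd, or
two of `a`, `b`, `a - b` have a root of odd multiplicity; and the first descent over `k(s)` is complete: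
for all monic squarefree divisors `A`, `B`, `D` of `a`, `b`, `a - b` which satisfy the parity condition
at `s = ∞` (`InfCond`) there is a point `P` in `E₀(k(s))` with `x(P) = A B` and `x(P) - a = A D` up to
constants of `k` and squares of `k(s)`.

Call `g` good if the polynomials `g - ξ`, `ξ` in `S`, are irreducible over `k`, separable, of degree `n`,
and for ALL curves `E₀` with bad places in `S` and `∞` and EVERY extension field `L` of `k` with a
separable closure `L'` the following holds.

(A) If the elements of `L` which are separable algebraic over `k` lie in a normal extension `M` of `k` in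
`L'` such that no polynomial `g - ξ`, `ξ` in `S`, splits into linear factors over `M`, then (`HoldsF`) the
Tate conjecture for divisors at the prime 2 holds for `X` over `L`, and the first descent on `E` over
`L(t)` is complete; if two of `a`, `b`, `a - b` have a root of odd multiplicity (`TwoOddFactors`), then
`E(L(t)) = 2 E(L(t)) + E₀(k(s))`, where `E₀(k(s))` is embedded by `s = g(t)` (every point of `E` over
`L(t)` is `2 Q + P₁` with a point `P₁` with coordinates in `k(s)`; so the rank of `E(L(t))` is the rank of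
`E₀(k(s))`, if it is finite); and if moreover (`BaseOdd`) the maximum of the degrees of `a` and `b` is
odd, then every class of 2-power order in `H¹(L(t), E)` which is trivial over the completions of `L(t)`
at all finite places is zero.

(B) The same holds if for each element of `L` which is separable algebraic over `k` the Galois group of
its minimal polynomial over `k` is solvable.

Theorem.

(1) (Congruences.) For every `η > 0` there is an ideal `M` of `R` with finite quotient such that a
proportion at least `1 - η` of the residue classes modulo `M` of polynomials of degree at most `n` over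
`R` has the property that EVERY polynomial over `R` in it is good.

(2) (100%.) Let `B 0`, `B 1`, ... be a sequence of nonempty finite sets of polynomials of degree at most
`n` over `R` which is equidistributed modulo each ideal of `R` with finite quotient. Then the
proportion of the good polynomials in `B i` tends to `1`.

(3) (Examples.) The Legendre curve `y² = x (x - s) (x - (s - 1))` and the curves
`y² = x (x - (c - s)) (x - (c - e s))` with `c e = m²`, `c ≠ 0`, `e ≠ 0, 1`, which have the point
`(c, m s)` of infinite order, have the properties `Base` and `BaseOdd`. The curves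
`y² = x (x - (β² s² - 1)) (x - (β² - 1) s²)` with `β ≠ 0, 1, -1` and
`y² = x (x - ((α s + β)² - s²)) (x - ((α s + β)² - 1))` with `α ≠ 0, 1, -1`, `β ≠ 0` and
`((α + β)² - 1) ((α - β)² - 1)` a nonzero square (rational elliptic surfaces with six fibres `I₂`, of
rank two) have the properties `Base` and `TwoOddFactors`.

Let `k` be a number field and `V` a Galois-stable subspace of `H²(X ⊗ k̄, ℚ₂(1))` such that `A_n` is no
composition factor of the image of the Galois group in `GL(V)` (for example a solvable image). For the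
field `L = M` which belongs to the kernel the condition (A) holds, for `g` good: the Galois group of
`g - ξ` is the symmetric group. So `V` consists of classes of divisors.

`TateAtTwo` is the statement that the Galois-invariant classes of the 2-adic Selmer group come from
points; as `Br(X ⊗ L') = Ш(E / L'(t))` away from the characteristic (Grothendieck), it is the Tate
conjecture for divisors for `ℓ = 2` and `X` over `L`.
-/

namespace Pool.Agent.Results.MP_8abef2_ag.PolynomialPullbacks

open Polynomial Pool.Agent.TH115.GD Pool.Agent.X243.Gen Pool.Agent.X243.CD Filter Topology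
open scoped Classical

/-- The polynomial over `k` with the coefficients `c`. -/
noncomputable def poly {R : Type} [CommRing R] (k : Type) [Field k] [Algebra R k] {r : ℕ}
    (c : Fin r → R) : k[X] :=
  ∑ j : Fin r, C (algebraMap R k (c j)) * X ^ (j : ℕ)

/-- The good polynomials. -/
structure Good (k : Type) [Field k] (S : Finset k) (n : ℕ) (g : k[X]) : Prop where
  irr : ∀ ξ ∈ S, Irreducible (g - C ξ) ∧ (g - C ξ).natDegree = n ∧ (g - C ξ).Separable
  tate : ∀ (K₀ : Type) [Field K₀] [Algebra k[X] K₀] [IsFractionRing k[X] K₀] (a b : k[X]),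
    Base K₀ a b → (∀ ξ, (a * b * (a - b)).IsRoot ξ → ξ ∈ S) →
    ∀ (L L' K F : Type) [Field L] [Field L'] [Algebra L L'] [Field K] [Algebra L[X] K]
    [IsFractionRing L[X] K] [Field F] [Algebra L'[X] F] [IsFractionRing L'[X] F] [Algebra K F]
    [Algebra k L] [Algebra k L'] [IsScalarTower k L L'], IsTower L L' K F →
      ∀ M : IntermediateField k L', Normal k M →
        (∀ x : L, IsSeparable k x → algebraMap L L' x ∈ M) →
        (∀ ξ ∈ S, ¬ ((g - C ξ).map (algebraMap k M)).Splits) →
        HoldsF K₀ L' K F a b (g.map (algebraMap k L))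
  solv : ∀ (K₀ : Type) [Field K₀] [Algebra k[X] K₀] [IsFractionRing k[X] K₀] (a b : k[X]),
    Base K₀ a b → (∀ ξ, (a * b * (a - b)).IsRoot ξ → ξ ∈ S) →
    ∀ (L L' K F : Type) [Field L] [Field L'] [Algebra L L'] [Field K] [Algebra L[X] K]
    [IsFractionRing L[X] K] [Field F] [Algebra L'[X] F] [IsFractionRing L'[X] F] [Algebra K F]
    [Algebra k L] [Algebra k L'] [IsScalarTower k L L'], IsTower L L' K F →
      (∀ x : L, IsSeparable k x → Group.IsSolvable (minpoly k x).Gal) →
        HoldsF K₀ L' K F a b (g.map (algebraMap k L))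

/-- The polynomial `y` over `R` is in the residue class `z`. -/
def InClass {R : Type} [CommRing R] {n : ℕ} {M : Ideal R} (y : Fin (n + 1) → R)
    (z : Fin (n + 1) → R ⧸ M) : Prop := ∀ j, Ideal.Quotient.mk M (y j) = z j

/-- A sequence of finite sets of polynomials which is equidistributed modulo each ideal with finite
quotient. -/
def Equidistributed {R : Type} [CommRing R] {n : ℕ} (B : ℕ → Finset (Fin (n + 1) → R)) : Prop :=
  ∀ M : Ideal R, Finite (R ⧸ M) → ∀ z : Fin (n + 1) → R ⧸ M,
    Tendsto (fun i => (((B i).filter (fun y => InClass y z)).card : ℝ) / ((B i).card : ℝ)) atTop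
      (𝓝 (1 / (Nat.card (R ⧸ M) : ℝ) ^ (n + 1)))

theorem good_of {R k : Type} [CommRing R] [IsDomain R] [IsIntegrallyClosed R]
    [IsNoetherianRing R] [Field k] [Algebra R k] [IsFractionRing R k] (h2 : (2 : R) ≠ 0)
    {S : Finset k} (hS : S.Nonempty) {n B : ℕ} {c : R} (hn : 5 ≤ n) (hodd : Odd n)
    {y : Fin (n + 1) → R}
    (h : ∀ i : S × Fin 3, ∃ p ∈ Zc R B c,
      (fun j => Ideal.Quotient.mk p (y j)) ∈ Aev n (lv R S) (sv R S n) i p) :
    Good k S n (poly k y) := by
  have h2k : (2 : k) ≠ 0 := by
    rw [← map_ofNat (algebraMap R k) 2]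
    exact (map_ne_zero_iff _ (IsFractionRing.injective R k)).2 h2
  have hg : poly k y = (Pool.Agent.Y160.T3.bF y).map (algebraMap R k) :=
    (Pool.Agent.X243.Tate.bF_map (algebraMap R k) y).symm
  have hF := poly_good (k := k) (by omega) h (poly k y) hg
  obtain ⟨ξ₀, hξ₀⟩ := hS
  have hdeg : (poly k y).natDegree = n := by
    have := (hF ξ₀ hξ₀).1.2
    rwa [natDegree_sub_C] at this
  refine ⟨fun ξ hξ => ⟨(hF ξ hξ).1.1, (hF ξ hξ).1.2, (hF ξ hξ).2.1⟩, ?_, ?_⟩
  · intro K₀ _ _ _ a b hB hroots L L' K F _ _ _ _ _ _ _ _ _ _ _ _ _ hT M hMn hM hns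
    exact ext_holdF h2k hB hn hodd hdeg (fun ξ hξ => hF ξ (hroots ξ hξ)) hT M hMn hM
      (fun ξ hξ => hns ξ (hroots ξ hξ))
  · intro K₀ _ _ _ a b hB hroots L L' K F _ _ _ _ _ _ _ _ _ _ _ _ _ hT hM
    exact solv_holdF h2k hB hn hodd hdeg (fun ξ hξ => hF ξ (hroots ξ hξ)) hT hM

/-- The examples of even degree. -/
def ExampleEven {k : Type} [Field k] (a b : k[X]) : Prop :=
  (∃ β : k, β ≠ 0 ∧ β ≠ 1 ∧ β ≠ -1 ∧ a = C (β ^ 2) * X ^ 2 - 1 ∧ b = C (β ^ 2 - 1) * X ^ 2) ∨
  (∃ α β μ : k, α ≠ 0 ∧ α ≠ 1 ∧ α ≠ -1 ∧ β ≠ 0 ∧ μ ≠ 0 ∧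
    ((α + β) ^ 2 - 1) * ((α - β) ^ 2 - 1) = μ ^ 2 ∧
    a = (C α * X + C β) ^ 2 - X ^ 2 ∧ b = (C α * X + C β) ^ 2 - 1)

theorem exampleEven {k K₀ : Type} [Field k] [Field K₀] [Algebra k[X] K₀] [IsFractionRing k[X] K₀]
    (h2 : (2 : k) ≠ 0) {a b : k[X]} (h : ExampleEven a b) : Base K₀ a b ∧ TwoOddFactors a b := by
  rcases h with ⟨β, hβ, hβ1, hβ2, rfl, rfl⟩ | ⟨α, β, μ, hα, hα1, hα2, hβ, hμ, hsq, rfl, rfl⟩
  · exact two5 h2 hβ hβ1 hβ2
  · exact ⟨(rk2_base h2 hα hα1 hα2 hβ hμ hsq).1, (rk2_base (K := K₀) h2 hα hα1 hα2 hβ hμ hsq).2.1⟩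

theorem result :
    (∀ (R k : Type) [CommRing R] [IsDomain R] [IsIntegrallyClosed R] [Algebra.FiniteType ℤ R]
      [Field k] [Algebra R k] [IsFractionRing R k], ¬ IsField R → (2 : R) ≠ 0 →
      ∀ S : Finset k, S.Nonempty → ∀ n : ℕ, 5 ≤ n → Odd n →
        (∀ η : ℝ, 0 < η → ∃ M : Ideal R, Finite (R ⧸ M) ∧
          (1 - η) * (Nat.card (R ⧸ M) : ℝ) ^ (n + 1) ≤
          (({z : Fin (n + 1) → R ⧸ M | ∀ y : Fin (n + 1) → R, InClass y z →
                Good k S n (poly k y)}.ncard : ℕ) : ℝ)) ∧
        (∀ B : ℕ → Finset (Fin (n + 1) → R), (∀ i, (B i).Nonempty) → Equidistributed B →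
          Tendsto (fun i => (((B i).filter (fun y => Good k S n (poly k y))).card : ℝ) /
            ((B i).card : ℝ)) atTop (𝓝 1))) ∧
    (∀ (k K₀ : Type) [Field k] [Field K₀] [Algebra k[X] K₀] [IsFractionRing k[X] K₀],
      (2 : k) ≠ 0 → BaseOdd K₀ (X : k[X]) (X - 1) ∧
        (∀ c e m : k, c ≠ 0 → e ≠ 0 → e ≠ 1 → c * e = m ^ 2 →
          BaseOdd K₀ (C c - X : k[X]) (C c - C e * X)) ∧
        ∀ a b : k[X], ExampleEven a b → Base K₀ a b ∧ TwoOddFactors a b) := by
  constructor
  swap
  · intro k K₀ _ _ _ _ h2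
    exact ⟨baseOdd1 h2, fun c e m hc he he1 hm => baseOdd3 h2 hc he he1 hm,
      fun a b h => exampleEven h2 h⟩
  intro R k _ _ _ _ _ _ _ hR h2 S hS n hn hodd
  have : IsNoetherianRing R := Algebra.FiniteType.isNoetherianRing ℤ R
  -- the good vectors
  obtain ⟨T, hT⟩ : ∃ T : Set (Fin (n + 1) → R), T = {y | Good k S n (poly k y)} := ⟨_, rfl⟩
  have key : ∀ η : ℝ, 0 < η → ∃ M : Ideal R, Finite (R ⧸ M) ∧
      (1 - η) * (Nat.card (R ⧸ M) : ℝ) ^ (Fintype.card (Fin (n + 1))) ≤
        (({x : Fin (n + 1) → R ⧸ M | ∀ y : Fin (n + 1) → R,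
          (∀ j, Ideal.Quotient.mk M (y j) = x j) → y ∈ T}).ncard : ℝ) := by
    intro η hη
    obtain ⟨M, hM, hd⟩ := densAff R hR h2 (by omega : 3 ≤ n) (l := lv R S) (lv_ne S) η hη
    have := hM
    refine ⟨M, hM, (hd (sv R S n)).trans ?_⟩
    have h3 : ∀ S T : Set (Fin (n + 1) → R ⧸ M), S ⊆ T →
        ((S.ncard : ℕ) : ℝ) ≤ ((T.ncard : ℕ) : ℝ) := fun S T h => by
      exact_mod_cast Set.ncard_le_ncard h (Set.toFinite _)
    apply h3
    intro x hx y hy
    rw [hT]
    refine good_of h2 hS (B := 2 * n + 2) (c := ∏ i, lv R S i) hn hodd (fun s => ?_)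
    obtain ⟨p, hp, hp'⟩ := hx s
    exact ⟨p, hp, hp' y hy⟩
  constructor
  · intro η hη
    obtain ⟨M, hM, hd⟩ := key η hη
    rw [Fintype.card_fin, hT] at hd
    exact ⟨M, hM, hd⟩
  · intro B hB heq
    have hc : ∀ (i : ℕ) (P Q : (Fin (n + 1) → R) → Prop) (d : DecidablePred P)
        (d' : DecidablePred Q), (∀ y, P y ↔ Q y) →
        (@Finset.filter _ P d (B i)).card = (@Finset.filter _ Q d' (B i)).card := by
      intro i P Q d d' hPQ
      congr 1
      ext y
      rw [Finset.mem_filter, Finset.mem_filter]
      exact and_congr_right fun _ => hPQ y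
    have hlim := tendsto_of_dens T key B hB (by
      intro M hM x
      have h1 := heq M hM x
      rw [Fintype.card_fin]
      refine h1.congr fun i => ?_
      exact congrArg (fun s : ℕ => (s : ℝ) / ((B i).card : ℝ)) (hc i _ _ _ _ fun y => Iff.rfl))
    refine hlim.congr fun i => ?_
    exact congrArg (fun s : ℕ => (s : ℝ) / ((B i).card : ℝ))
      (hc i _ _ _ _ fun y => by rw [hT]; exact Iff.rfl)

end Pool.Agent.Results.MP_8abef2_ag.PolynomialPullbacks
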