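import Pool.Agent.H313.GE.Pow
import Pool.Agent.H313.GE.Avm

/-!
# The generalized conjecture of Tate in the degrees `(2 ν, ν)` for powers of coverings

Let `k` be a field with `q` elements, `Z` the smooth projective variety over `k` of dimension `n` with
the equations `G i = 0`, `ℓ` a prime, `F i` (`i < m`) forms of degrees divisible by `N_i = ℓ ^ (a i)`, such
that their divisors on `Z` are smooth and ample with normal crossings, and `χ i` characters of the
multiplicative group of `k` of the orders `N_i` (which divide `q - 1`). For an extension `k'` of `k` of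
degree `r` and `v = (v i)`, `v i` not zero in `k'`, let `X_v` be the covering `w_i ^ (N_i) = v_i F_i`
(`i < m`) of `Z` over `k'`, a smooth projective variety with an action of `𝔾 = ∏ μ_(N_i)`. Let `s ≥ 1`,
and for `v_1, …, v_(2s)` let `X` be the product of the `X_(v_a)`, a smooth projective variety of dimension
`2 s n` over `k'`, and `𝔾'` the group of the `(g_1, …, g_(2s))` in `𝔾 ^ (2 s)` with
`g_1 ⋯ g_s = g_(s+1) ⋯ g_(2s)`. The invariants of `𝔾'` are the direct summand of the cohomology of `X`
(defined by algebraic correspondences) which is the cohomology of the covering of `Z ^ (2 s)`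
`w_i ^ (N_i) = u_i F_i(z_1) ⋯ F_i(z_s) F_i(z_(s+1)) ^ (N_i - 1) ⋯ F_i(z_(2s)) ^ (N_i - 1)`,
`u = v_1 ⋯ v_s / (v_(s+1) ⋯ v_(2s))`.

For `j = (j i)`, `0 ≤ j i < N_i`, let `I(j)` be the set of the `i` with `j i ≠ 0`, and `L_j` the tensor
product over `i ∈ I(j)` of the Kummer sheaves of the characters `χ i ^ (j i)` for `F i`, on the open
subset `U_j` of `Z` where these `F i` are not zero. For `I(j)` not empty the cohomology with compact
supports of `L_j` is zero outside of the degree `n`; the `x j i` are the eigenvalues of the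
Frobenius of `k` on `V_j = H ^ n_c (U_j, L_j)`, and `D j = ∏ (1 - x j i T)` is the product
`twistedProduct` (for `P z = 1 - T`), or its inverse if `n` is odd. By the theorem of Künneth and duality the
invariants of `𝔾'` in the cohomology of `X` are the cohomology of `Z ^ (2 s)` and, in the degree `2 s n`,
the direct sum of the spaces `Hom (V_j ^ (⊗ s), V_j ^ (⊗ s)) (- s n)` for `I(j)` not empty. On a product
of eigenvectors the Frobenius of `k'` acts as `q' ^ (s n)` times the quotient of `(∏ x j (A a)) ^ r χ_j(N u)`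
by `(∏ x j (B a)) ^ r`, for two families `A`, `B` of `s` indices, up to the inverse.

More generally let `𝒴 → Z` be a family of smooth projective varieties, `R` one of its sheaves
`R ^ w`, and `P z = det (1 - T Frob)` on the fibre of `R` at `z`; then this describes a part of the
cohomology of the products of the fibre products of `𝒴` and the `X_v` over `Z`.
-/

set_option autoImplicit false
set_option linter.all false
set_option maxHeartbeats 4000000

open Polynomial NumberField Module

namespace Pool.Agent.Results.MP_8abef2_ag.PowersOfCoverings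

open Pool.Agent.H313.GE.Pts

/-- The set of the `i` with `j i ≠ 0`. -/
def supp {m : ℕ} {N : Fin m → ℕ} (j : ∀ i, Fin (N i)) : Finset (Fin m) :=
  Finset.univ.filter fun i => (j i : ℕ) ≠ 0

/-- The root of unity `χ_j(N u)`, the product of the `χ i ^ (j i) (N (u i))`. -/
noncomputable def value {k K E : Type} [Field k] [Field K] [NumberField K] [Field E]
    {m : ℕ} {N : Fin m → ℕ} (χ : Fin m → MulChar k (𝓞 K)) (φ : 𝓞 K →+* E) {k' : Type} [Field k']
    [Algebra k k'] (u : Fin m → k'ˣ) (j : ∀ i, Fin (N i)) : E :=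
  φ (∏ i, (χ i ^ (j i : ℕ)) (Algebra.norm k (u i : k')))

/-- The finite set of the `e` in `ℤ ^ d`, not zero, with the sum zero, such that the sum of the
absolute values of the `e i` is at most `2 s`. -/
def relations (d s : ℕ) : Set (Fin d → ℤ) :=
  {e | e ≠ 0 ∧ ∑ i, e i = 0 ∧ ∑ i, |e i| ≤ 2 * s}

/-- `H` is the product of `1 - c_i T`, `i < d`, with `c_i ≠ 0`, and `W` is the product of the
`1 - (∏ c_i ^ (e i)) T` over all `e` in `relations d s`. -/
def IsRelationPolynomial (ℓ : ℕ) [Fact ℓ.Prime] (s : ℕ) (H W : (ZMod ℓ)[X]) : Prop :=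
  ∃ (d : ℕ) (c : Fin d → AlgebraicClosure (ZMod ℓ)), (∀ i, c i ≠ 0) ∧
    H.map (algebraMap (ZMod ℓ) (AlgebraicClosure (ZMod ℓ))) = ∏ i, (1 - C (c i) * X) ∧
    W.map (algebraMap (ZMod ℓ) (AlgebraicClosure (ZMod ℓ))) =
      ∏ᶠ e ∈ relations d s, (1 - C (∏ i, c i ^ e i) * X)

/-- **The generalized conjecture of Tate in the degrees `(2 ν, ν)` for powers of coverings.**

For every nonempty set `I` of indices `i` let the product of the `P z (T ^ (deg z))` over the closed
points `z` of `Z` where the `F i`, `i ∈ I`, are not zero, or its inverse if `n` is odd, be modulo `ℓ` a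
polynomial `H I`, of degree equal to the dimension of the `V_j` with `I(j) = I`. Let `W I` be its
relation polynomial for `s` (`IsRelationPolynomial`), and suppose that no cyclotomic polynomial `Φ_N`, `N`
prime to `ℓ`, divides `W I` modulo `ℓ`.

Then for all finite extensions `k'` of `k`, of degree `r`, all `u` and all `j` with `I(j)` not empty: if
`(∏ x j (A a)) ^ r χ_j(N u) = (∏ x j (B a)) ^ r` for two families `A`, `B` of `s` indices, then `B` is a
permutation of `A` and `χ_j(N u) = 1`.

So the classes in the invariants of `𝔾'` in `H ^ (2 s n) (X)` on which the Frobenius of a finite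
extension of `k'` acts as the power `s n` of the order of the field are, apart from those of `Z ^ (2 s)`,
linear combinations of the classes which belong to a permutation `σ` of `s` elements and
projections of the `V_j` onto eigenspaces of the Frobenius, which are polynomials in the Frobenius, as the
`x j i` are different: they are products of the classes of graphs of powers of the Frobenius
endomorphism and of elements of `𝔾` on the products of the factors `a` and `s + σ(a)`, and so
algebraic. (If `χ_j(N u) = 1` then the factors have isomorphic quotients, so that one may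
suppose that the `v_a` are equal.) Therefore for the direct summand of `X` of the invariants of `𝔾'`,
for all `ν` and all `v_1, …, v_(2s)`, the subspace of `H ^ (2 ν)` of the Galois coniveau `ν` is the
one of the geometric coniveau `ν`, if this is so for `Z ^ (2 s)`, for example for `Z = P ^ n`. -/
theorem result (ℓ : ℕ) [Fact ℓ.Prime] (k : Type) [Field k] [Finite k]
    (K : Type) [Field K] [NumberField K] (M t m n : ℕ)
    (G : Fin t → MvPolynomial (Fin (M + 1)) k) (F : Fin m → MvPolynomial (Fin (M + 1)) k)
    (P : Pt G → ℤ[X]) (hP : ∀ z, (P z).coeff 0 = 1)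
    (a : Fin m → ℕ) (χ : Fin m → MulChar k (𝓞 K)) (hχ : ∀ i, orderOf (χ i) = ℓ ^ a i)
    (E : Type) [Field E] [CharZero E] [IsAlgClosed E] (φ : 𝓞 K →+* E)
    (D : (∀ i, Fin (ℓ ^ a i)) → (𝓞 K)[X]) (d : (∀ i, Fin (ℓ ^ a i)) → ℕ)
    (x : ∀ j : (∀ i, Fin (ℓ ^ a i)), Fin (d j) → E)
    (hD : ∀ j, (supp j).Nonempty →
      IsSigned n (twistedProduct G F P (fun i => χ i ^ (j i : ℕ)) (supp j)) (D j) ∧
      (D j).map φ = ∏ i, (1 - C (x j i) * X))
    (s : ℕ) (H W : Finset (Fin m) → (ZMod ℓ)[X])
    (hI : ∀ I : Finset (Fin m), I.Nonempty →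
      IsSigned n (PowerSeries.map (Int.castRingHom (ZMod ℓ)) (openProduct G F P I)) (H I) ∧
      IsRelationPolynomial ℓ s (H I) (W I) ∧ NoCyclotomic ℓ (W I))
    (hdim : ∀ j, (supp j).Nonempty → (H (supp j)).natDegree = d j)
    (k' : Type) [Field k'] [Finite k'] [Algebra k k'] (u : Fin m → k'ˣ)
    (j : ∀ i, Fin (ℓ ^ a i)) (hj : (supp j).Nonempty) (A B : Fin s → Fin (d j))
    (hAB : (∏ b, x j (A b)) ^ finrank k k' * value χ φ u j =
      (∏ b, x j (B b)) ^ finrank k k') :
    (∃ σ : Equiv.Perm (Fin s), ∀ b, B b = A (σ b)) ∧ value χ φ u j = 1 := by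
  classical
  have hr : 0 < finrank k k' := Module.finrank_pos
  have hℓ : ℓ.Prime := Fact.out
  have hone : ∀ i, χ i ^ ℓ ^ a i = 1 := fun i => by rw [← hχ i, pow_orderOf_eq_one]
  obtain ⟨hDs, hx⟩ := hD j hj
  obtain ⟨hH, ⟨d', c, hc0, hc, hW⟩, hno⟩ := hI _ hj
  obtain ⟨hD0, hmod⟩ := twisted_mod G F P hP (fun i => χ i ^ (j i : ℕ)) (supp j) a
    (fun i _ => by rw [← pow_mul, mul_comm, pow_mul, hone i, one_pow]) hDs hH
  have hne : ∀ (R : Type) [Field R] (y : R), (1 - C y * X : R[X]) ≠ 0 := by
    intro R _ y h1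
    have h2 := congrArg (fun p => Polynomial.coeff p 0) h1
    simp at h2
  have hnd : ∀ (R : Type) [Field R] (y : R), y ≠ 0 → (1 - C y * X : R[X]).natDegree = 1 := by
    intro R _ y hy
    have h1 : (1 - C y * X : R[X]) = C (-y) * X + C 1 := by
      rw [C_neg, C_1]
      ring
    rw [h1, natDegree_linear (neg_ne_zero.2 hy)]
  have hd : d' = d j := by
    rw [← hdim j hj, ← natDegree_map (algebraMap (ZMod ℓ) (AlgebraicClosure (ZMod ℓ))), hc,
      natDegree_prod _ _ fun i _ => hne _ _]
    rw [Finset.sum_congr rfl fun i _ => hnd _ _ (hc0 i)]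
    simp
  subst hd
  have hrel : ∏ᶠ e ∈ relations (d j) s, (1 - C (∏ i, c i ^ e i) * X) =
      ∏ e ∈ Pool.Agent.H313.GE.relations (d j) s, (1 - C (∏ i, c i ^ e i) * X) := by
    apply finprod_mem_eq_prod_of_inter_mulSupport_eq
    congr 1
    ext e
    rw [Finset.mem_coe, Pool.Agent.H313.GE.mem_relations]
    rfl
  rw [hrel] at hW
  -- the eigenvalues are not zero
  have hx0 : ∀ i, x j i ≠ 0 := by
    obtain ⟨M', hM', hm⟩ := Pool.Agent.TH639.SC.exists_red (𝓞 K) hℓ
    letI : Field (𝓞 K ⧸ M') := Ideal.Quotient.field M'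
    have h1 : ((ℓ : ℕ) : 𝓞 K ⧸ M') = 0 := by
      have := Ideal.Quotient.eq_zero_iff_mem.2 hm
      rwa [map_natCast] at this
    have hch := Pool.Agent.TH639.SC.charP_of_mem (R := 𝓞 K ⧸ M') hℓ h1
    have hφ : Function.Injective φ := by
      rw [RingHom.injective_iff_ker_eq_bot]
      apply Ideal.eq_bot_of_comap_eq_bot (R := ℤ)
      rw [eq_bot_iff]
      intro z hz
      rw [Ideal.mem_comap, RingHom.mem_ker, eq_intCast, map_intCast, Int.cast_eq_zero] at hz
      rw [hz]
      exact Ideal.zero_mem _
    have h2 : d j ≤ (D j).natDegree := by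
      have h3 := congrArg natDegree (hmod (𝓞 K ⧸ M') (Ideal.Quotient.mk M'))
      rw [natDegree_map (ZMod.castHom (dvd_refl ℓ) (𝓞 K ⧸ M')), hdim j hj] at h3
      rw [← h3]
      exact natDegree_map_le
    intro i h0
    have h3 : ((D j).map φ).natDegree < ∑ _l : Fin (d j), 1 := by
      rw [hx, natDegree_prod _ _ fun i _ => hne _ _]
      refine Finset.sum_lt_sum (fun l _ => ?_) ⟨i, Finset.mem_univ i, ?_⟩
      · by_cases h : x j l = 0
        · rw [h, C_0, zero_mul, sub_zero, natDegree_one]
          exact Nat.zero_le _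
        · rw [hnd _ _ h]
      · rw [h0, C_0, zero_mul, sub_zero, natDegree_one]
        exact one_pos
    rw [natDegree_map_eq_of_injective hφ] at h3
    simp at h3
    omega
  set e : ℕ := ∏ i, ℓ ^ a i with he
  have he0 : 0 < e := Finset.prod_pos fun i _ => pow_pos hℓ.pos _
  have hψe : (fun i => χ i ^ (j i : ℕ)) ^ e = 1 := by
    funext i
    rw [Pi.pow_apply, Pi.one_apply]
    obtain ⟨d, hd⟩ := Finset.dvd_prod_of_mem (fun i => ℓ ^ a i) (Finset.mem_univ i)
    rw [he, hd, ← pow_mul, mul_comm (j i : ℕ), mul_assoc, pow_mul, hone i, one_pow]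
  have hval : value χ φ u j ^ e = 1 := by
    unfold value
    rw [← map_pow, Pool.Agent.H313.GE.value_root _ he0 hψe k' u, map_one]
  exact Pool.Agent.H313.GE.no_relation_le φ (D j) (x j) hD0 hx (H (supp j)) hmod c hc0 hc s hW hno
    hx0 A B hr he0 hval hAB

end Pool.Agent.Results.MP_8abef2_ag.PowersOfCoverings
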