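import Pool.Agent.X312.RL.Gtc

/-!
# The generalized Tate conjecture on `Y × X ^ n` over finite fields: a law for each level

Let `X` and `Y` be smooth projective varieties over an algebraic closure of a finite field (each of
them is defined over a finite field, and subvarieties as well), and `w ≥ 0`. For a variety `Z` consider

* the space `N_w(Z)`, the sum of the spaces `N_ℓ ^ ν H ^ i (Z)` for all `i` and `ν` with `i - 2 ν = w`: the
  largest subspace of the `ℓ`-adic cohomology in the degrees congruent to `w` modulo two on which the
  eigenvalues of Frobenius in degree `i` are algebraic integers times `q ^ ((i - w) / 2)`, and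
* its subspace `N'_w(Z)`, the sum of the images of the Gysin maps `f_* : H ^ w (T) → H(Z)` for all
  morphisms `f : T → Z` of smooth projective varieties.

The part of degree `i = 2 j + w`, `j ≥ 0`, of `N'_w(Z)` is `N ^ j H ^ i (Z)`, and in the degrees `i < w`
both spaces are everything. So `δ_w(Z) = dim N_w(Z) - dim N'_w(Z)` is the defect of the generalized Tate
conjecture for `Z` in all degrees `i` and coniveaux `j` with `i - 2 j = w`; for `w = 0` this is the Tate
conjecture, together with the semisimplicity of the Tate classes. Let `b` be the sum of the Betti
numbers of `X` and `r(X ^ n)` the rank of the group of the cycles of all codimensions on `X ^ n` modulo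
numerical equivalence. Then for all `m ≥ 1`: **the generalized Tate conjecture in level `w` is true for
`Y × X ^ m`, or**

`δ_w(Y × X ^ n) ≥ (1 - 4 (m + 3) b ^ (m + 5) log (n + 1) / n) r(X ^ n)`
**for all** `n ≥ 1` **such that homological and numerical equivalence agree on** `X ^ n`.

This condition is satisfied for all `n` for example if `X` is a product of elliptic curves (Spiess), or
any variety whose powers satisfy the Tate conjecture and the semisimplicity of the Tate classes. Nothing
is assumed on `Y`. So a single class in some `N_ℓ ^ j H ^ (2 j + w) (Y × X ^ m)` which is not supported in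
codimension `j` forces the spaces of such classes on `Y × X ^ n` to have at least about `r(X ^ n)`
dimensions modulo the classes supported in the expected codimension, for all large `n`; conversely the
conjecture in level `w` for `Y × X ^ m` follows from one inequality between integers for one `n`.

In the Lean statement `pw X n` is the product of `n + 1` copies of `X`. The theorem is proved for all
classes of smooth proper varieties which are closed under products and such that all algebraic classes
are combinations of push-forwards of fundamental classes of varieties of the class (`Resolves`, true by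
the alterations of de Jong), for all Weil cohomologies with a system of Frobenius endomorphisms with
integral eigenvalues (`FrobIntegral`, a theorem of Deligne).

The proof. The two families `N'_w` and `N_w` are stable under algebraic correspondences of all degrees.
Identify the classes on `Y × Z` with the homomorphisms `H(Y) → H(Z)`. If the two families differ for
`Z = P = X ^ m`, one takes an idempotent correspondence `g` on `P` of minimal rank which does not vanish
on `N(P) / N'(P)` and an element `z` of `g N(P)` which is not in `N'(P)`. A correspondence `x` with
`x z ∈ N'(P)` has a nilpotent compression `g x g`, so the trace of `g x` vanishes; therefore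
`dim N(Z) / N'(Z)` is at least the rank of the trace form `(u, v) ↦ tr (g v u)` for all `Z`, and for
`Z = X ^ n` this rank is compared with `r(X ^ n)` by the log-convexity of the sequence of the ranks of
the intersection forms and by the symmetric group.
-/

set_option autoImplicit false

open CategoryTheory AlgebraicGeometry

universe u v

namespace Pool.Agent.Results.MP_8abef2_ag.RelativeLevelLaw

open Pool.Agent.H914 Pool.Agent.H914.VarClass Pool.Agent.H914.VarClass.Obj
  Pool.Agent.H914.WeilCohomology Pool.Agent.X312.Con Pool.Agent.X312.Gtc
open Pool.Agent.W534 (FrobSystem)
open Pool.Agent.Y133.Half (pw cycRank)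

variable {k : Type u} [Field k] {𝒱 : VarClass k} {ops : CycleOps 𝒱}

/-- The sum of the Betti numbers of `X`. -/
noncomputable def totalBetti (W : WeilCohomology.{u, v} ops) (X : 𝒱.Obj) : ℕ :=
  Module.finrank W.K (W.H X)

/-- The dimension of `N'_w(Z)`, the sum of the images of `H ^ w (T)` under the Gysin maps. -/
noncomputable def geoDim (W : WeilCohomology.{u, v} ops) (w : ℕ) (Z : 𝒱.Obj) : ℕ :=
  Module.finrank W.K (geoSpace W w Z)

/-- The dimension of `N_w(Z)`, the sum of the `N_ℓ ^ ν H ^ i (Z)` with `i - 2 ν = w`. -/
noncomputable def galDim {W : WeilCohomology.{u, v} ops} {p : ℕ} (Φ : FrobSystem W p) (w : ℕ)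
    (Z : 𝒱.Obj) : ℕ :=
  Module.finrank W.K (galSpace Φ w Z)

/-- **The law for the generalized Tate conjecture in level `w` on `Y × X ^ n`.** Here `pw X m` is the
product of `m + 1` copies of `X`. -/
theorem result (W : WeilCohomology.{u, v} ops) {p : ℕ} (Φ : FrobSystem W p) (hΦ : FrobIntegral Φ)
    (hW : Resolves W) (w : ℕ) (X Y : 𝒱.Obj) (m : ℕ) :
    GTCLevel Φ w (Y.prod (pw X m)) ∨
    ∀ n : ℕ, HomEqNum W (pw X n) → (geoDim W w (Y.prod (pw X n)) : ℝ) +
      (1 - 4 * (m + 4) * (totalBetti W X : ℝ) ^ (m + 6) * Real.log (n + 2) / (n + 1)) *
        cycRank ops (pw X n) ≤ galDim Φ w (Y.prod (pw X n)) := by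
  have h4 : ∀ n : ℕ, Pool.Agent.X312.RL.cst (Module.finrank W.K (W.H X)) (m + 1) 2 n =
      4 * (m + 4) * (totalBetti W X : ℝ) ^ (m + 6) * Real.log (n + 2) / (n + 1) := by
    intro n
    unfold Pool.Agent.X312.RL.cst totalBetti
    push_cast
    ring
  rcases gtc_rel Φ hΦ hW w X Y m with h | h
  · exact Or.inl h
  · right
    intro n hn
    have h3 := h n hn
    rw [h4] at h3
    exact h3

end Pool.Agent.Results.MP_8abef2_ag.RelativeLevelLaw
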